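import Pool.Agent.Q266.VG.Stm

/-!
# Project VG: jobs LCS and GEN
-/

set_option autoImplicit false

namespace Pool.Agent.Q265.VG

open Pool.Agent.Q266.VG
open scoped commutatorElement

/-- three subgroups lemma modulo a normal subgroup -/
lemma three {G : Type} [Group G] (A B C N : Subgroup G) [N.Normal]
    (h1 : ⁅⁅B, C⁆, A⁆ ≤ N) (h2 : ⁅⁅C, A⁆, B⁆ ≤ N) : ⁅⁅A, B⁆, C⁆ ≤ N := by
  have key : ∀ X : Subgroup G, X ≤ N ↔ X.map (QuotientGroup.mk' N) = ⊥ := by
    intro X
    rw [Subgroup.map_eq_bot_iff, QuotientGroup.ker_mk']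
  rw [key] at h1 h2 ⊢
  rw [Subgroup.map_commutator, Subgroup.map_commutator] at h1 h2 ⊢
  exact Subgroup.commutator_commutator_eq_bot_of_rotate h1 h2

theorem lcs : S_LCS := by
  intro G _ m n
  induction n generalizing m with
  | zero => exact le_of_eq rfl
  | succ n ih =>
    have e1 : gam G (n + 1) = ⁅gam G n, (⊤ : Subgroup G)⁆ := rfl
    rw [Subgroup.commutator_comm, e1]
    refine three _ _ _ _ ?_ ?_
    · rw [Subgroup.commutator_comm (⊤ : Subgroup G) (gam G m)]
      have h := ih (m + 1)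
      have e2 : m + 1 + n + 1 = m + (n + 1) + 1 := by ring
      rw [e2] at h
      exact h
    · exact Subgroup.commutator_mono (ih m) le_rfl

/-- the induction step -/
lemma step {G : Type} [Group G] (X : ℕ → G) (hX : Subgroup.closure (Set.range X) = ⊤) (m : ℕ)
    (S : Set G) (hS : ∀ s ∈ S, s ∈ gam G m) (hg : gam G m ≤ Subgroup.closure S ⊔ gam G (m + 1)) :
    gam G (m + 1) ≤ Subgroup.closure {g | ∃ s ∈ S, ∃ k, g = ⁅s, X k⁆} ⊔ gam G (m + 2) := by
  set K := Subgroup.closure {g | ∃ s ∈ S, ∃ k, g = ⁅s, X k⁆} ⊔ gam G (m + 2) with hK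
  have hNK : gam G (m + 2) ≤ K := le_sup_right
  have hcm : ∀ p ∈ gam G m, ∀ q : G, ⁅p, q⁆ ∈ gam G (m + 1) := fun p hp q =>
    Subgroup.commutator_mem_commutator hp (Subgroup.mem_top q)
  have hcm1 : ∀ p ∈ gam G (m + 1), ∀ q : G, ⁅p, q⁆ ∈ gam G (m + 2) := fun p hp q =>
    Subgroup.commutator_mem_commutator hp (Subgroup.mem_top q)
  have hconj : ∀ u ∈ gam G (m + 1), u ∈ K → ∀ g : G, g * u * g⁻¹ ∈ K := by
    intro u hu huK g
    have e : g * u * g⁻¹ = ⁅u, g⁆⁻¹ * u := by
      rw [commutatorElement_inv, commutatorElement_def]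
      group
    rw [e]
    exact K.mul_mem (K.inv_mem (hNK (hcm1 u hu g))) huK
  -- step 1
  have hs : ∀ s ∈ S, ∀ q : G, ⁅s, q⁆ ∈ K := by
    intro s hsS q
    have hq : q ∈ Subgroup.closure (Set.range X) := by rw [hX]; trivial
    induction hq using Subgroup.closure_induction with
    | mem x hx =>
      obtain ⟨k, rfl⟩ := hx
      exact (le_sup_left : _ ≤ K) (Subgroup.subset_closure ⟨s, hsS, k, rfl⟩)
    | one => rw [commutatorElement_one_right]; exact K.one_mem
    | mul x y _ _ ihx ihy =>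
      have e : ⁅s, x * y⁆ = ⁅s, x⁆ * (x * ⁅s, y⁆ * x⁻¹) := by
        simp only [commutatorElement_def]
        group
      rw [e]
      exact K.mul_mem ihx (hconj _ (hcm s (hS s hsS) y) ihy x)
    | inv x _ ihx =>
      have e : ⁅s, x⁻¹⁆ = x⁻¹ * ⁅s, x⁆⁻¹ * x⁻¹⁻¹ := by
        simp only [commutatorElement_def]
        group
      rw [e]
      exact hconj _ ((gam G (m + 1)).inv_mem (hcm s (hS s hsS) x)) (K.inv_mem ihx) _
  -- step 2
  have hall : ∀ p ∈ gam G m, ∀ q : G, ⁅p, q⁆ ∈ K := by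
    intro p hp q
    let H : Subgroup G :=
      { carrier := {p | p ∈ gam G m ∧ ⁅p, q⁆ ∈ K}
        one_mem' := ⟨(gam G m).one_mem, by rw [commutatorElement_one_left]; exact K.one_mem⟩
        mul_mem' := by
          rintro a b ⟨ha, ha'⟩ ⟨hb, hb'⟩
          refine ⟨(gam G m).mul_mem ha hb, ?_⟩
          have e : ⁅a * b, q⁆ = (a * ⁅b, q⁆ * a⁻¹) * ⁅a, q⁆ := by
            simp only [commutatorElement_def]
            group
          rw [e]
          exact K.mul_mem (hconj _ (hcm b hb q) hb' a) ha'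
        inv_mem' := by
          rintro a ⟨ha, ha'⟩
          refine ⟨(gam G m).inv_mem ha, ?_⟩
          have e : ⁅a⁻¹, q⁆ = a⁻¹ * ⁅a, q⁆⁻¹ * a⁻¹⁻¹ := by
            simp only [commutatorElement_def]
            group
          rw [e]
          exact hconj _ ((gam G (m + 1)).inv_mem (hcm a ha q)) (K.inv_mem ha') _ }
    have hle : Subgroup.closure S ⊔ gam G (m + 1) ≤ H := by
      refine sup_le ?_ ?_
      · rw [Subgroup.closure_le]
        intro s hsS
        exact ⟨hS s hsS, hs s hsS q⟩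
      · intro u hu
        exact ⟨Subgroup.lowerCentralSeries_antitone _ (Nat.le_succ m) hu, hNK (hcm1 u hu q)⟩
    exact (hle (hg hp)).2
  have e1 : gam G (m + 1) = ⁅gam G m, (⊤ : Subgroup G)⁆ := rfl
  rw [e1, Subgroup.commutator_le]
  intro p hp q _
  exact hall p hp q

lemma E_append {G : Type} [Group G] (x : ℕ → G) (y z : ℕ) (Z : List ℕ) (k : ℕ) :
    E x y z (Z ++ [k]) = ⁅E x y z Z, x k⁆ := by
  simp only [E, List.foldl_append, List.foldl_cons, List.foldl_nil]

lemma E_mem {G : Type} [Group G] (x : ℕ → G) (y z : ℕ) (Z : List ℕ) :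
    E x y z Z ∈ gam G (Z.length + 1) := by
  induction Z using List.reverseRecOn with
  | nil => exact Subgroup.commutator_mem_commutator (Subgroup.mem_top _) (Subgroup.mem_top _)
  | append_singleton Z k ih =>
    rw [E_append, List.length_append, List.length_singleton]
    exact Subgroup.commutator_mem_commutator ih (Subgroup.mem_top _)

theorem gen : S_GEN := by
  intro n
  have hX : Subgroup.closure (Set.range (FreeGroup.of : ℕ → F)) = ⊤ := FreeGroup.closure_range_of ℕ
  induction n with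
  | zero =>
    have h := step (FreeGroup.of : ℕ → F) hX 0 (Set.range FreeGroup.of)
      (fun s _ => Subgroup.mem_top s) (by rw [hX]; exact le_sup_left)
    refine h.trans (sup_le_sup_right (Subgroup.closure_mono ?_) _)
    rintro g ⟨s, ⟨y, rfl⟩, k, rfl⟩
    exact ⟨y, k, [], rfl, rfl⟩
  | succ n ih =>
    have h := step (FreeGroup.of : ℕ → F) hX (n + 1)
      {g | ∃ (y z : ℕ) (Z : List ℕ), Z.length = n ∧ g = E FreeGroup.of y z Z} (by
        rintro s ⟨y, z, Z, rfl, rfl⟩
        exact E_mem _ y z Z) ih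
    refine h.trans (sup_le_sup_right (Subgroup.closure_mono ?_) _)
    rintro g ⟨s, ⟨y, z, Z, hZ, rfl⟩, k, rfl⟩
    exact ⟨y, z, Z ++ [k], by rw [List.length_append, hZ, List.length_singleton],
      (E_append _ y z Z k).symm⟩

end Pool.Agent.Q265.VG
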